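import Mathlib
import Pool.Agent.H41.ET.Defs

/-!
# Pairwise compatible Euler tours: all the tours, one after the other
-/

set_option autoImplicit false

namespace Pool.Agent.H335.ETm

open Pool.Agent.H41.ET

/-! ### Orbits -/

section

variable {V : Type} {N O : V → V}

lemma orb_cl (x : V) : Cl N O (orb N O x) :=
  ⟨fun _ hy A hA hx => hA.1 _ (hy A hA hx), fun _ hy A hA hx => hA.2 _ (hy A hA hx)⟩

lemma self_mem (x : V) : x ∈ orb N O x := fun _ _ hx => hx

lemma orb_sub {x y : V} (h : y ∈ orb N O x) : orb N O y ⊆ orb N O x :=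
  fun _ hu => hu _ (orb_cl x) h

lemma cl_compl (hN : Inv0 N) (hO : Inv0 O) {A : Set V} (hA : Cl N O A) : Cl N O Aᶜ := by
  refine ⟨fun x hx h => hx ?_, fun x hx h => hx ?_⟩
  · have := hA.1 _ h
    rwa [hN.1] at this
  · have := hA.2 _ h
    rwa [hO.1] at this

lemma orb_symm (hN : Inv0 N) (hO : Inv0 O) {x y : V} (h : y ∈ orb N O x) : x ∈ orb N O y := by
  by_contra hx
  exact h _ (cl_compl hN hO (orb_cl y)) hx (self_mem y)

lemma orb_eq (hN : Inv0 N) (hO : Inv0 O) {x y : V} (h : y ∈ orb N O x) :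
    orb N O y = orb N O x :=
  Set.Subset.antisymm (orb_sub h) (orb_sub (orb_symm hN hO h))

/-- the representatives of the orbits -/
lemma reps [Fintype V] [DecidableEq V] [Nonempty V] (X : Set V) (m : ℕ) (hN : Inv0 N)
    (hO : Inv0 O) (hfew : Few N O m) (hX : ∀ x, ∃ y ∈ orb N O x, y ∉ X ∧ N y ∉ X) :
    ∃ (z : V) (P : Finset V), Fintype.card V ≤ m * (orb N O z).ncard ∧ P.card ≤ m ∧
      (∀ y, y ∈ orb N O z ∨ ∃ x ∈ P, y ∈ orb N O x) ∧ (∀ x ∈ P, x ∉ orb N O z) ∧
      (∀ x ∈ P, ∀ y ∈ P, x ≠ y → y ∉ orb N O x) ∧ ∀ x ∈ P, x ∉ X ∧ N x ∉ X := by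
  classical
  obtain ⟨g, hg⟩ : ∃ g : Set V → V, ∀ x, g (orb N O x) ∈ orb N O x ∧ g (orb N O x) ∉ X ∧
      N (g (orb N O x)) ∉ X := by
    refine ⟨fun A => if h : ∃ y ∈ A, y ∉ X ∧ N y ∉ X then h.choose else Classical.arbitrary V, ?_⟩
    intro x
    simp only [dif_pos (hX x)]
    exact (hX x).choose_spec
  -- a set of values of `g` has at most `m` elements
  have hdiff : ∀ u v, g (orb N O u) ≠ g (orb N O v) → g (orb N O v) ∉ orb N O (g (orb N O u)) := by
    intro u v huv h
    apply huv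
    have h1 := orb_eq hN hO h
    rw [orb_eq hN hO (hg u).1, orb_eq hN hO (hg v).1] at h1
    rw [h1]
  have hcard : ∀ Q : Finset V, (Q.image fun x => g (orb N O x)).card ≤ m := by
    intro Q
    refine hfew _ ?_
    intro x hx y hy hxy
    obtain ⟨u, -, rfl⟩ := Finset.mem_image.1 hx
    obtain ⟨v, -, rfl⟩ := Finset.mem_image.1 hy
    exact hdiff u v hxy
  obtain ⟨z, -, hz⟩ := Finset.exists_max_image (Finset.univ : Finset V)
    (fun x => (orb N O x).ncard) Finset.univ_nonempty
  refine ⟨z, (Finset.univ.filter fun x => x ∉ orb N O z).image fun x => g (orb N O x),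
    ?_, hcard _, ?_, ?_, ?_, ?_⟩
  · -- the largest orbit
    have h1 : (Set.univ : Set V) ⊆
        ⋃ x ∈ (Finset.univ.image fun x => g (orb N O x)), orb N O x := by
      intro y _
      refine Set.mem_iUnion₂.2 ⟨g (orb N O y), Finset.mem_image_of_mem _ (Finset.mem_univ y), ?_⟩
      rw [orb_eq hN hO (hg y).1]
      exact self_mem y
    have h2 : (Set.univ : Set V).ncard ≤
        ∑ x ∈ (Finset.univ.image fun x => g (orb N O x)), (orb N O x).ncard :=
      (Set.ncard_le_ncard h1 (Set.toFinite _)).trans (Finset.set_ncard_biUnion_le _ _)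
    rw [Set.ncard_univ, Nat.card_eq_fintype_card] at h2
    refine h2.trans ?_
    refine (Finset.sum_le_card_nsmul _ _ _ fun x _ => hz x (Finset.mem_univ x)).trans ?_
    rw [smul_eq_mul]
    exact Nat.mul_le_mul_right _ (hcard _)
  · intro y
    by_cases hy : y ∈ orb N O z
    · exact Or.inl hy
    · refine Or.inr ⟨g (orb N O y), Finset.mem_image_of_mem _ (by simp [hy]), ?_⟩
      rw [orb_eq hN hO (hg y).1]
      exact self_mem y
  · intro x hx h
    obtain ⟨u, hu, rfl⟩ := Finset.mem_image.1 hx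
    have hu' : u ∉ orb N O z := (Finset.mem_filter.1 hu).2
    apply hu'
    rw [← orb_eq hN hO h, orb_eq hN hO (hg u).1]
    exact self_mem u
  · intro x hx y hy hxy
    obtain ⟨u, -, rfl⟩ := Finset.mem_image.1 hx
    obtain ⟨v, -, rfl⟩ := Finset.mem_image.1 hy
    exact hdiff u v hxy
  · intro x hx
    obtain ⟨u, -, rfl⟩ := Finset.mem_image.1 hx
    exact (hg u).2

end

/-! ### The state of the construction -/

/-- the points -/
abbrev W (d : ℕ) : Type := Option (ZMod (2 * d - 1))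

open Classical in
/-- the number of the changed edges at a point -/
noncomputable def load {c d : ℕ} (t : Fin c → ZMod (2 * d - 1)) (N : Fin c → W d → W d) (j : ℕ)
    (z : W d) : ℕ :=
  (Finset.univ.filter fun i : Fin c => i.val < j ∧ N i z ≠ gk d (t i) z).card

/-- the first `j` tours -/
structure St {c d : ℕ} [NeZero (2 * d - 1)] (m K : ℕ) (S : Finset (ZMod (2 * d - 1)))
    (O : Fin c → W d → W d) (j : ℕ) (t : Fin c → ZMod (2 * d - 1)) (N : Fin c → W d → W d) :
    Prop where
  tS : ∀ i, i.val < j → t i ∉ S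
  inv : ∀ i, i.val < j → Inv0 (N i)
  conn : ∀ i, i.val < j → Conn (N i) (O i)
  diff : ∀ i i', i.val < j → i'.val < j → i ≠ i' → ∀ x, N i x ≠ N i' x
  cls : ∀ i, i.val < j → ∀ z, N i z = gk d (t i) z ∨
    ∃ a b, z = some a ∧ N i z = some b ∧ a + b ∈ S
  load_le : ∀ z, load t N j z ≤ K
  sum_le : ∑ z, load t N j z ≤ 4 * m * j

/-- the possible new edges -/
def RR {c d : ℕ} (S : Finset (ZMod (2 * d - 1))) (j : ℕ) (N : Fin c → W d → W d)
    (a b : W d) : Prop :=
  (∃ x y, a = some x ∧ b = some y ∧ x + y ∈ S) ∧ ∀ i : Fin c, i.val < j → N i a ≠ b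

section

variable {c d m K ξ θ j : ℕ} [NeZero (2 * d - 1)] {S : Finset (ZMod (2 * d - 1))}
  {O : Fin c → W d → W d} {t : Fin c → ZMod (2 * d - 1)} {N : Fin c → W d → W d}

omit [NeZero (2 * d - 1)] in
lemma gk_some {t₀ x y : ZMod (2 * d - 1)} (h : gk d t₀ (some x) = some y) : y = t₀ - x := by
  rw [gk] at h
  split_ifs at h with h1
  exact (Option.some_injective _ h).symm

lemma count (hgk : S_GK) (hd : 1 ≤ d) (st : St m K S O j t N) (O₀ : W d → W d)
    (t₀ : ZMod (2 * d - 1)) (X : Set (W d)) (hX0 : none ∈ X)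
    (hXξ : X.ncard ≤ ξ) (hXK : ∀ z, z ∉ X → load t N j z < K) (z : W d)
    (hθ : ∀ x, some x ∉ orb (gk d t₀) O₀ z →
      θ ≤ {s | s ∈ S ∧ 2 * t₀ - s ∈ S ∧ some (s - x) ∈ orb (gk d t₀) O₀ z}.ncard)
    (hpar : 2 * m + 2 * ξ + 2 * K ≤ θ) (x₀ : W d) (hx₀ : x₀ ∉ orb (gk d t₀) O₀ z)
    (hx₁ : x₀ ∉ X) (hx₂ : gk d t₀ x₀ ∉ X) :
    2 * m ≤ {c' | c' ∈ orb (gk d t₀) O₀ z ∧ c' ∉ X ∧ gk d t₀ c' ∉ X ∧ RR S j N x₀ c' ∧
      RR S j N (gk d t₀ x₀) (gk d t₀ c')}.ncard := by
  classical
  obtain ⟨x, rfl⟩ : ∃ x, x₀ = some x := by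
    rcases x₀ with _ | x
    · exact absurd hX0 hx₁
    · exact ⟨x, rfl⟩
  have hinv : Inv0 (gk d t₀) := (hgk d hd).1 t₀
  obtain ⟨u, hu⟩ : ∃ u, gk d t₀ (some x) = some u := by
    rcases h : gk d t₀ (some x) with _ | u
    · rw [h] at hx₂
      exact absurd hX0 hx₂
    · exact ⟨u, rfl⟩
  have hux : u = t₀ - x := gk_some hu
  obtain ⟨G, hG⟩ : ∃ G, G = {c' | c' ∈ orb (gk d t₀) O₀ z ∧ c' ∉ X ∧ gk d t₀ c' ∉ X ∧
      RR S j N (some x) c' ∧ RR S j N (gk d t₀ (some x)) (gk d t₀ c')} := ⟨_, rfl⟩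
  rw [← hG]
  obtain ⟨T, hT⟩ : ∃ T, T = {s | s ∈ S ∧ 2 * t₀ - s ∈ S ∧
      some (s - x) ∈ orb (gk d t₀) O₀ z} := ⟨_, rfl⟩
  have h1 : θ ≤ T.ncard := by
    rw [hT]
    exact hθ x hx₀
  have hinj : Function.Injective (fun s : ZMod (2 * d - 1) => (some (s - x) : W d)) := by
    intro s s' hs
    have := Option.some_injective _ hs
    exact sub_left_injective this
  obtain ⟨F1, hF1⟩ : ∃ F1, F1 = Finset.univ.filter fun i : Fin c =>
      i.val < j ∧ N i (some x) ≠ gk d (t i) (some x) := ⟨_, rfl⟩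
  obtain ⟨F2, hF2⟩ : ∃ F2, F2 = Finset.univ.filter fun i : Fin c =>
      i.val < j ∧ N i (gk d t₀ (some x)) ≠ gk d (t i) (gk d t₀ (some x)) := ⟨_, rfl⟩
  have hF1c : F1.card < K := by
    have := hXK _ hx₁
    rw [hF1]
    unfold load at this
    convert this using 2
  have hF2c : F2.card < K := by
    have := hXK _ hx₂
    rw [hF2]
    unfold load at this
    convert this using 2
  have hsub : (fun s : ZMod (2 * d - 1) => (some (s - x) : W d)) '' T ⊆
      G ∪ (X ∪ (gk d t₀ '' X ∪ (((F1.image fun i => N i (some x) : Finset (W d)) : Set (W d)) ∪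
        ((F2.image fun i => gk d t₀ (N i (gk d t₀ (some x))) : Finset (W d)) :
          Set (W d))))) := by
    rintro _ ⟨s, hs, rfl⟩
    rw [hT] at hs
    obtain ⟨hs1, hs2, hs3⟩ := hs
    by_contra hcon
    simp only [Set.mem_union, not_or] at hcon
    obtain ⟨hc1, hc2, hc3, hc4, hc5⟩ := hcon
    apply hc1
    have hc3' : gk d t₀ (some (s - x)) ∉ X := by
      intro h
      apply hc3
      exact ⟨_, h, hinv.1 _⟩
    obtain ⟨v, hv⟩ : ∃ v, gk d t₀ (some (s - x)) = some v := by
      rcases h : gk d t₀ (some (s - x)) with _ | v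
      · rw [h] at hc3'
        exact absurd hX0 hc3'
      · exact ⟨v, rfl⟩
    have hvx : v = t₀ - (s - x) := gk_some hv
    rw [hG]
    refine ⟨hs3, hc2, hc3', ⟨⟨x, s - x, rfl, rfl, ?_⟩, ?_⟩, ⟨⟨u, v, hu, hv, ?_⟩, ?_⟩⟩
    · rw [add_sub_cancel]
      exact hs1
    · intro i hi hNi
      by_cases hg : N i (some x) = gk d (t i) (some x)
      · rw [hg] at hNi
        have h2 := gk_some hNi
        have h3 : t i = s := by
          have h4 := congrArg (fun w => w + x) h2
          simp only [sub_add_cancel] at h4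
          exact h4.symm
        exact st.tS i hi (h3 ▸ hs1)
      · apply hc4
        rw [Finset.mem_coe, Finset.mem_image]
        refine ⟨i, ?_, hNi⟩
        rw [hF1, Finset.mem_filter]
        exact ⟨Finset.mem_univ i, hi, hg⟩
    · rw [hux, hvx]
      have h2 : t₀ - x + (t₀ - (s - x)) = 2 * t₀ - s := by ring
      rw [h2]
      exact hs2
    · intro i hi hNi
      by_cases hg : N i (gk d t₀ (some x)) = gk d (t i) (gk d t₀ (some x))
      · rw [hg, hu, hv] at hNi
        have h2 := gk_some hNi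
        have h3 : t i = 2 * t₀ - s := by
          rw [hvx, hux] at h2
          have h4 : t i = (t i - (t₀ - x)) + (t₀ - x) := by ring
          rw [h4, ← h2]
          ring
        exact st.tS i hi (h3 ▸ hs2)
      · apply hc5
        rw [Finset.mem_coe, Finset.mem_image]
        refine ⟨i, ?_, ?_⟩
        · rw [hF2, Finset.mem_filter]
          exact ⟨Finset.mem_univ i, hi, hg⟩
        · rw [hNi, hinv.1]
  have h2 := Set.ncard_le_ncard hsub (Set.toFinite _)
  rw [Set.ncard_image_of_injective _ hinj] at h2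
  have h3 := Set.ncard_union_le G (X ∪ (gk d t₀ '' X ∪
    (((F1.image fun i => N i (some x) : Finset (W d)) : Set (W d)) ∪
        ((F2.image fun i => gk d t₀ (N i (gk d t₀ (some x))) : Finset (W d)) :
          Set (W d)))))
  have h4 := Set.ncard_union_le X (gk d t₀ '' X ∪
    (((F1.image fun i => N i (some x) : Finset (W d)) : Set (W d)) ∪
        ((F2.image fun i => gk d t₀ (N i (gk d t₀ (some x))) : Finset (W d)) :
          Set (W d))))
  have h5 := Set.ncard_union_le (gk d t₀ '' X)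
    (((F1.image fun i => N i (some x) : Finset (W d)) : Set (W d)) ∪
        ((F2.image fun i => gk d t₀ (N i (gk d t₀ (some x))) : Finset (W d)) :
          Set (W d)))
  have h6 := Set.ncard_union_le
    (((F1.image fun i => N i (some x) : Finset (W d)) : Set (W d)))
        ((F2.image fun i => gk d t₀ (N i (gk d t₀ (some x))) : Finset (W d)) :
          Set (W d))
  have h7 : (gk d t₀ '' X).ncard ≤ X.ncard := Set.ncard_image_le (Set.toFinite _)
  rw [Set.ncard_coe_finset, Set.ncard_coe_finset] at h6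
  have h8 : (F1.image fun i => N i (some x)).card ≤ F1.card := Finset.card_image_le
  have h9 : (F2.image fun i => gk d t₀ (N i (gk d t₀ (some x)))).card ≤ F2.card :=
    Finset.card_image_le
  omega

lemma load_none_le (st : St m K S O j t N) (h1 : 4 * m * c < ξ * K) (hj : j < c) :
    ({z | K ≤ load t N j z} ∪ {none} : Set (W d)).ncard ≤ ξ := by
  classical
  have h2 : ((Finset.univ : Finset (W d)).filter fun z => K ≤ load t N j z).card * K ≤
      ∑ z : W d, load t N j z := by
    rw [← smul_eq_mul]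
    refine (Finset.card_nsmul_le_sum _ (fun z => load t N j z) K
      fun z hz => (Finset.mem_filter.1 hz).2).trans ?_
    exact Finset.sum_le_sum_of_subset (Finset.filter_subset _ _)
  have h3 : 4 * m * j ≤ 4 * m * c := Nat.mul_le_mul_left _ hj.le
  have h4 : ((Finset.univ : Finset (W d)).filter fun z => K ≤ load t N j z).card * K < ξ * K :=
    lt_of_le_of_lt (h2.trans (st.sum_le.trans h3)) h1
  have h5 := Nat.lt_of_mul_lt_mul_right h4
  have h6 : ({z | K ≤ load t N j z} : Set (W d)) =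
      (((Finset.univ : Finset (W d)).filter fun z => K ≤ load t N j z : Finset (W d)) :
        Set (W d)) := by
    ext z
    simp
  have h7 := Set.ncard_union_le {z | K ≤ load t N j z} ({none} : Set (W d))
  rw [h6, Set.ncard_coe_finset, Set.ncard_singleton] at h7
  rw [h6]
  omega

lemma exists_class (hass : S_ASSIGN) {κ : ℕ} (hd : 1 ≤ d) {O₀ : W d → W d} (hO₀ : Inv0 O₀)
    (hκ : ∀ x y, x ≠ y → {t | O₀ (gk d t x) = gk d t y}.ncard ≤ κ) (X : Set (W d))
    (hX : X.ncard ≤ ξ) (h2 : c + S.card + ξ ^ 2 * (κ + 2) ≤ 2 * d - 1) (hj : j < c)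
    (t : Fin c → ZMod (2 * d - 1)) : ∃ t₀, t₀ ∉ S ∧ (∀ i : Fin c, i.val < j → t i ≠ t₀) ∧
      ∀ x, ∃ y ∈ orb (gk d t₀) O₀ x, y ∉ X ∧ gk d t₀ y ∉ X := by
  classical
  have h3 := hass d κ hd O₀ X hO₀ hκ
  have h4 : X.ncard ^ 2 * (κ + 2) ≤ ξ ^ 2 * (κ + 2) :=
    Nat.mul_le_mul_right _ (Nat.pow_le_pow_left hX 2)
  obtain ⟨D, hD⟩ : ∃ D, D = {t | ∃ x, ∀ y ∈ orb (gk d t) O₀ x, y ∈ X ∨ gk d t y ∈ X} :=
    ⟨_, rfl⟩
  rw [← hD] at h3
  have h5 : (t '' {i : Fin c | i.val < j}).ncard < c := by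
    have h6 : ({i : Fin c | i.val < j}).ncard < Nat.card (Fin c) := by
      refine Set.ncard_lt_card ?_
      intro h
      have h7 : (⟨j, hj⟩ : Fin c) ∈ {i : Fin c | i.val < j} := by
        rw [h]
        exact Set.mem_univ _
      exact absurd h7 (lt_irrefl j)
    rw [Nat.card_fin] at h6
    exact lt_of_le_of_lt (Set.ncard_image_le (Set.toFinite _)) h6
  have h6 := Set.ncard_union_le D ((S : Set (ZMod (2 * d - 1))) ∪ t '' {i : Fin c | i.val < j})
  have h7 := Set.ncard_union_le (S : Set (ZMod (2 * d - 1))) (t '' {i : Fin c | i.val < j})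
  rw [Set.ncard_coe_finset] at h7
  have h8 : ∃ t₀, t₀ ∉ D ∪ ((S : Set (ZMod (2 * d - 1))) ∪ t '' {i : Fin c | i.val < j}) := by
    by_contra hcon
    push Not at hcon
    have h9 : D ∪ ((S : Set (ZMod (2 * d - 1))) ∪ t '' {i : Fin c | i.val < j}) = Set.univ :=
      Set.eq_univ_of_forall hcon
    rw [h9, Set.ncard_univ, Nat.card_zmod] at h6
    omega
  obtain ⟨t₀, ht₀⟩ := h8
  simp only [Set.mem_union, not_or] at ht₀
  obtain ⟨hc1, hc2, hc3⟩ := ht₀
  refine ⟨t₀, fun h => hc2 (Finset.mem_coe.2 h), fun i hi h => hc3 ⟨i, hi, h⟩, ?_⟩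
  rw [hD] at hc1
  intro x
  by_contra hcon
  apply hc1
  refine ⟨x, fun y hy => ?_⟩
  by_contra h
  rw [not_or] at h
  exact hcon ⟨y, hy, h⟩

lemma step (hgk : S_GK) (hstar : S_STAR) (hass : S_ASSIGN) {κ : ℕ} (hd : 1 ≤ d)
    (hO : ∀ j, Inv0 (O j)) (hgood : ∀ j, Good d m θ κ S (O j)) (h1 : 4 * m * c < ξ * K)
    (h2 : c + S.card + ξ ^ 2 * (κ + 2) ≤ 2 * d - 1) (h3 : 2 * m + 2 * ξ + 2 * K ≤ θ)
    (hj : j < c) (st : St m K S O j t N) :
    ∃ (t' : Fin c → ZMod (2 * d - 1)) (N' : Fin c → W d → W d), St m K S O (j + 1) t' N' := by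
  classical
  obtain ⟨J, hJ⟩ : ∃ J : Fin c, J.val = j := ⟨⟨j, hj⟩, rfl⟩
  obtain ⟨X, hXe⟩ : ∃ X : Set (W d), X = {z | K ≤ load t N j z} ∪ {none} := ⟨_, rfl⟩
  have hX0 : none ∈ X := by
    rw [hXe]
    exact Or.inr rfl
  have hXξ : X.ncard ≤ ξ := by
    rw [hXe]
    exact load_none_le st h1 hj
  have hXK : ∀ z, z ∉ X → load t N j z < K := by
    intro z hz
    rw [hXe, Set.mem_union, not_or] at hz
    exact not_le.1 hz.1
  obtain ⟨hfew, hθ, hκ⟩ := hgood J
  obtain ⟨t₀, ht₀S, ht₀t, ht₀X⟩ := exists_class hass hd (hO J) hκ X hXξ h2 hj t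
  have hinv : Inv0 (gk d t₀) := (hgk d hd).1 t₀
  obtain ⟨z, P, hz, hPm, hP1, hP2, hP3, hP4⟩ := reps X m hinv (hO J) (hfew t₀) ht₀X
  have hcardV : Fintype.card (W d) = 2 * d := by
    rw [Fintype.card_option, ZMod.card]
    omega
  rw [hcardV] at hz
  have hRsymm : ∀ a b, RR S j N a b → RR S j N b a := by
    rintro a b ⟨⟨x, y, rfl, rfl, hxy⟩, h⟩
    refine ⟨⟨y, x, rfl, rfl, by rwa [add_comm]⟩, fun i hi hNi => h i hi ?_⟩
    rw [← hNi, (st.inv i hi).1]
  obtain ⟨N₁, hN1, hN2, hN3, hN4⟩ := hstar (W d) (gk d t₀) (O J) X (RR S j N) m z P hinv (hO J)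
    hRsymm hPm hP1 hP2 hP3 hP4 fun x₀ hx₀ =>
      count hgk hd st (O J) t₀ X hX0 hXξ hXK z
        (fun x hx => hθ t₀ ht₀S _ (orb_cl z) hz x hx) h3 x₀ (hP2 x₀ hx₀) (hP4 x₀ hx₀).1
        (hP4 x₀ hx₀).2
  have hne : ∀ i : Fin c, i.val < j → i ≠ J := by
    intro i hi h
    rw [h, hJ] at hi
    exact lt_irrefl j hi
  have hcase : ∀ i : Fin c, i.val < j + 1 → i = J ∨ i.val < j := by
    intro i hi
    rcases Nat.lt_succ_iff_lt_or_eq.1 hi with h | h
    · exact Or.inr h
    · exact Or.inl (Fin.ext (h.trans hJ.symm))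
  -- the class of the new edges
  have hcls1 : ∀ z, N₁ z = gk d t₀ z ∨ ∃ a b, z = some a ∧ N₁ z = some b ∧ a + b ∈ S := by
    intro z
    rcases hN3 z with h | ⟨-, ⟨x, y, hx, hy, hxy⟩, -⟩
    · exact Or.inl h
    · exact Or.inr ⟨x, y, hx, hy, hxy⟩
  have hdiff1 : ∀ i : Fin c, i.val < j → ∀ x, N i x ≠ N₁ x := by
    intro i hi x hx
    rcases hN3 x with h | ⟨-, -, h⟩
    · rcases st.cls i hi x with h' | ⟨a, b, ha, hb, hab⟩
      · rw [h, h'] at hx
        exact ht₀t i hi ((hgk d hd).2 _ _ _ hx)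
      · rw [h, hb, ha] at hx
        have h5 := gk_some hx.symm
        apply ht₀S
        rw [h5, add_sub_cancel] at hab
        exact hab
    · exact h i hi hx
  have hload : ∀ z, load (Function.update t J t₀) (Function.update N J N₁) (j + 1) z ≤
      load t N j z + if N₁ z ≠ gk d t₀ z then 1 else 0 := by
    intro z
    have h5 : (Finset.univ.filter fun i : Fin c => i.val < j + 1 ∧
        Function.update N J N₁ i z ≠ gk d (Function.update t J t₀ i) z) ⊆
        (Finset.univ.filter fun i : Fin c => i.val < j ∧ N i z ≠ gk d (t i) z) ∪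
          (if N₁ z ≠ gk d t₀ z then {J} else ∅) := by
      intro i hi
      rw [Finset.mem_filter] at hi
      obtain ⟨-, hi1, hi2⟩ := hi
      rw [Finset.mem_union]
      rcases hcase i hi1 with h | h
      · subst h
        rw [Function.update_self, Function.update_self] at hi2
        rw [if_pos hi2]
        exact Or.inr (Finset.mem_singleton_self _)
      · rw [Function.update_of_ne (hne i h), Function.update_of_ne (hne i h)] at hi2
        exact Or.inl (Finset.mem_filter.2 ⟨Finset.mem_univ i, h, hi2⟩)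
    have h6 := (Finset.card_le_card h5).trans (Finset.card_union_le _ _)
    have h7 : (if N₁ z ≠ gk d t₀ z then ({J} : Finset (Fin c)) else ∅).card =
        if N₁ z ≠ gk d t₀ z then 1 else 0 := by
      split_ifs <;> rfl
    rw [h7] at h6
    unfold load
    convert h6 using 2
  refine ⟨Function.update t J t₀, Function.update N J N₁, ?_, ?_, ?_, ?_, ?_, ?_, ?_⟩
  · intro i hi
    rcases hcase i hi with h | h
    · rw [h, Function.update_self]
      exact ht₀S
    · rw [Function.update_of_ne (hne i h)]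
      exact st.tS i h
  · intro i hi
    rcases hcase i hi with h | h
    · rw [h, Function.update_self]
      exact hN1
    · rw [Function.update_of_ne (hne i h)]
      exact st.inv i h
  · intro i hi
    rcases hcase i hi with h | h
    · rw [h, Function.update_self]
      exact hN2
    · rw [Function.update_of_ne (hne i h)]
      exact st.conn i h
  · intro i i' hi hi' hii x
    rcases hcase i hi with h | h
    · rcases hcase i' hi' with h' | h'
      · exact absurd (h.trans h'.symm) hii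
      · rw [h, Function.update_self, Function.update_of_ne (hne i' h')]
        exact (hdiff1 i' h' x).symm
    · rcases hcase i' hi' with h' | h'
      · rw [h', Function.update_self, Function.update_of_ne (hne i h)]
        exact hdiff1 i h x
      · rw [Function.update_of_ne (hne i h), Function.update_of_ne (hne i' h')]
        exact st.diff i i' h h' hii x
  · intro i hi z
    rcases hcase i hi with h | h
    · rw [h, Function.update_self, Function.update_self]
      exact hcls1 z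
    · rw [Function.update_of_ne (hne i h), Function.update_of_ne (hne i h)]
      exact st.cls i h z
  · intro z
    refine (hload z).trans ?_
    split_ifs with h
    · rcases hN3 z with h' | ⟨h', -⟩
      · exact absurd h' h
      · exact hXK z h'
    · exact st.load_le z
  · refine (Finset.sum_le_sum fun z _ => hload z).trans ?_
    rw [Finset.sum_add_distrib]
    have h5 : (∑ z : W d, if N₁ z ≠ gk d t₀ z then 1 else 0) ≤ 4 * m := by
      rw [← Finset.card_filter]
      have h6 : ({a | N₁ a ≠ gk d t₀ a} : Set (W d)) =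
          ((Finset.univ.filter fun z => N₁ z ≠ gk d t₀ z : Finset (W d)) : Set (W d)) := by
        ext z
        simp
      rw [h6, Set.ncard_coe_finset] at hN4
      exact hN4
    have h6 := st.sum_le
    have h7 : 4 * m * (j + 1) = 4 * m * j + 4 * m := by ring
    omega

end

theorem main (hgk : S_GK) (hstar : S_STAR) (hass : S_ASSIGN) : S_MAIN := by
  intro d c m θ κ K ξ S O hd _ hO hgood h1 h2 h3
  have : NeZero (2 * d - 1) := ⟨by omega⟩
  have h4 : ∀ j, j ≤ c → ∃ (t : Fin c → ZMod (2 * d - 1)) (N : Fin c → W d → W d),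
      St m K S O j t N := by
    intro j
    induction j with
    | zero =>
      intro _
      refine ⟨fun _ => 0, fun _ => id, ?_, ?_, ?_, ?_, ?_, ?_, ?_⟩
      · intro i hi
        exact absurd hi (Nat.not_lt_zero _)
      · intro i hi
        exact absurd hi (Nat.not_lt_zero _)
      · intro i hi
        exact absurd hi (Nat.not_lt_zero _)
      · intro i _ hi
        exact absurd hi (Nat.not_lt_zero _)
      · intro i hi
        exact absurd hi (Nat.not_lt_zero _)
      · intro z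
        simp [load]
      · simp [load]
    | succ j ih =>
      intro hj
      obtain ⟨t, N, st⟩ := ih (by omega)
      exact step hgk hstar hass hd hO hgood h1 h2 h3 (by omega) st
  obtain ⟨t, N, st⟩ := h4 c le_rfl
  exact ⟨N, fun j => st.inv j j.2, fun i j hij x => st.diff i j i.2 j.2 hij x,
    fun j => st.conn j j.2⟩

end Pool.Agent.H335.ETm
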